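import Mathlib
import Pool.Agent.R3.Stmts

/-!
# Kit for the three matchings squad
-/

set_option autoImplicit false

namespace Pool.Agent.R3.Kit

variable {V : Type} [Fintype V] [DecidableEq V]

theorem dl_zero : dl 0 = 0 := by
  unfold dl
  simp

theorem ct_update (l : V → Fin 3) (v : V) (j i : Fin 3) :
    (ct (Function.update l v j) i : ℤ) =
      (ct l i : ℤ) - (if l v = i then 1 else 0) + (if j = i then 1 else 0) := by
  unfold ct
  have h1 : (Finset.univ.filter (fun u => Function.update l v j u = i)).erase v =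
      (Finset.univ.filter (fun u => l u = i)).erase v := by
    ext u
    simp only [Finset.mem_erase, Finset.mem_filter, Finset.mem_univ, true_and]
    constructor
    · rintro ⟨h1, h2⟩
      rw [Function.update_of_ne h1] at h2
      exact ⟨h1, h2⟩
    · rintro ⟨h1, h2⟩
      rw [Function.update_of_ne h1]
      exact ⟨h1, h2⟩
  have h2 : ∀ m : V → Fin 3, ((Finset.univ.filter (fun u => m u = i)).card : ℤ) =
      (((Finset.univ.filter (fun u => m u = i)).erase v).card : ℤ) + (if m v = i then 1 else 0) := by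
    intro m
    split_ifs with h
    · have h3 : v ∈ Finset.univ.filter (fun u => m u = i) := by simp [h]
      have h4 := Finset.card_erase_add_one h3
      rw [← h4]
      push_cast
      ring
    · rw [Finset.erase_eq_of_notMem (by simp [h])]
      ring
  rw [h2, h2 l, h1, Function.update_self]
  ring

theorem pt_update (l : V → Fin 3) (v : V) (j : Fin 3) :
    pt (Function.update l v j) = pt l - dl (l v) + dl j := by
  unfold pt dl
  rw [ct_update, ct_update]
  rfl

theorem pt_zero (l : V → Fin 3) (v : V) : pt (Function.update l v 0) = pt l - dl (l v) := by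
  rw [pt_update, dl_zero, add_zero]

theorem pt_of_zero {l : V → Fin 3} {v : V} (h : l v = 0) (j : Fin 3) :
    pt (Function.update l v j) = pt l + dl j := by
  rw [pt_update, h, dl_zero, sub_zero]

theorem nu_update {l : V → Fin 3} {v : V} (h : l v ≠ 0) :
    nu (Function.update l v 0) + 1 = nu l := by
  unfold nu
  have h1 : Finset.univ.filter (fun u => Function.update l v 0 u ≠ 0) =
      (Finset.univ.filter (fun u => l u ≠ 0)).erase v := by
    ext u
    simp only [Finset.mem_erase, Finset.mem_filter, Finset.mem_univ, true_and]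
    constructor
    · intro h2
      rcases eq_or_ne u v with rfl | huv
      · rw [Function.update_self] at h2
        exact absurd rfl h2
      · rw [Function.update_of_ne huv] at h2
        exact ⟨huv, h2⟩
    · rintro ⟨h1, h2⟩
      rw [Function.update_of_ne h1]
      exact h2
  rw [h1]
  exact Finset.card_erase_add_one (by simp [h])

/-! ## Near perfect matchings -/

section states

variable {σ : Fin 3 → Equiv.Perm V} {l : V → Fin 3} {x y : V}

theorem ph_self (v : V) (j : Fin 3) : ph σ (Function.update l v j) v = σ j v := by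
  unfold ph
  rw [Function.update_self]

theorem ph_ne {u v : V} (h : u ≠ v) (j : Fin 3) : ph σ (Function.update l v j) u = ph σ l u := by
  unfold ph
  rw [Function.update_of_ne h]

theorem ph_zero (s0 : σ 0 = 1) {v : V} (h : l v = 0) : ph σ l v = v := by
  unfold ph
  rw [h, s0]
  rfl

theorem np_y (s0 : σ 0 = 1) (h : NP σ l x y) (hxy : x ≠ y) : l y ≠ 0 := fun h0 =>
  h.2.1 y (Ne.symm hxy) (ph_zero s0 h0)

theorem np_cov (h : NP σ l x y) {c : V} (hc : c ≠ y) : ∃ r, r ≠ x ∧ ph σ l r = c := by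
  have h1 : ((Finset.univ.erase x).image (ph σ l)) = Finset.univ.erase y := by
    apply Finset.eq_of_subset_of_card_le
    · intro u hu
      rw [Finset.mem_image] at hu
      obtain ⟨r, hr, rfl⟩ := hu
      exact Finset.mem_erase.2 ⟨h.2.1 r (Finset.mem_erase.1 hr).1, Finset.mem_univ _⟩
    · rw [Finset.card_image_of_injOn, Finset.card_erase_of_mem (Finset.mem_univ _),
        Finset.card_erase_of_mem (Finset.mem_univ _)]
      intro u hu v hv huv
      exact h.2.2 u v (Finset.mem_erase.1 hu).1 (Finset.mem_erase.1 hv).1 huv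
  have h2 : c ∈ (Finset.univ.erase x).image (ph σ l) := by
    rw [h1]
    exact Finset.mem_erase.2 ⟨hc, Finset.mem_univ _⟩
  rw [Finset.mem_image] at h2
  obtain ⟨r, hr, hrc⟩ := h2
  exact ⟨r, (Finset.mem_erase.1 hr).1, hrc⟩

/-- column retraction -/
theorem np_col (s0 : σ 0 = 1) (h : NP σ l x y) (hxy : x ≠ y) :
    NP σ (Function.update l y 0) x (ph σ l y) := by
  refine ⟨?_, ?_, ?_⟩
  · rw [Function.update_of_ne hxy]
    exact h.1
  · intro v hv hvy
    rcases eq_or_ne v y with rfl | hvy'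
    · rw [ph_self, s0] at hvy
      exact h.2.1 v hv hvy.symm
    · rw [ph_ne hvy'] at hvy
      exact hvy' (h.2.2 v y hv (Ne.symm hxy) hvy)
  · intro v w hv hw hvw
    rcases eq_or_ne v y with rfl | hvy
    · rcases eq_or_ne w v with rfl | hwv
      · rfl
      · rw [ph_self, ph_ne hwv, s0] at hvw
        exact absurd hvw.symm (h.2.1 w hw)
    · rcases eq_or_ne w y with rfl | hwy
      · rw [ph_self, ph_ne hvy, s0] at hvw
        exact absurd hvw (h.2.1 v hv)
      · rw [ph_ne hvy, ph_ne hwy] at hvw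
        exact h.2.2 v w hv hw hvw

/-- row retraction -/
theorem np_row (s0 : σ 0 = 1) (h : NP σ l x y) (hxy : x ≠ y) {p : V} (hpx : p ≠ x)
    (hp : ph σ l p = x) : NP σ (Function.update l p 0) p y := by
  refine ⟨Function.update_self _ _ _, ?_, ?_⟩
  · intro v hv hvy
    rw [ph_ne hv] at hvy
    rcases eq_or_ne v x with rfl | hvx
    · rw [ph_zero s0 h.1] at hvy
      exact hxy hvy
    · exact h.2.1 v hvx hvy
  · intro v w hv hw hvw
    rw [ph_ne hv, ph_ne hw] at hvw
    rcases eq_or_ne v x with rfl | hvx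
    · rcases eq_or_ne w v with rfl | hwv
      · rfl
      · rw [ph_zero s0 h.1, ← hp] at hvw
        exact absurd (h.2.2 p w hpx hwv hvw).symm hw
    · rcases eq_or_ne w x with rfl | hwx
      · rw [ph_zero s0 h.1, ← hp] at hvw
        exact absurd (h.2.2 v p hvx hpx hvw) hv
      · exact h.2.2 v w hvx hwx hvw

theorem np_p (s0 : σ 0 = 1) {p : V} (hpx : p ≠ x) (hp : ph σ l p = x) : l p ≠ 0 := fun h0 =>
  hpx ((ph_zero s0 h0).symm.trans hp)

theorem pf_of_np (s0 : σ 0 = 1) (h : NP σ l x x) : PF σ l := by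
  intro v w hvw
  rcases eq_or_ne v x with rfl | hvx
  · rcases eq_or_ne w v with rfl | hwv
    · rfl
    · rw [ph_zero s0 h.1] at hvw
      exact absurd hvw.symm (h.2.1 w hwv)
  · rcases eq_or_ne w x with rfl | hwx
    · rw [ph_zero s0 h.1] at hvw
      exact absurd hvw (h.2.1 v hvx)
    · exact h.2.2 v w hvx hwx hvw

theorem np_of_pf (h : PF σ l) (g : V) : NP σ (Function.update l g 0) g (ph σ l g) := by
  refine ⟨Function.update_self _ _ _, ?_, ?_⟩
  · intro v hv hvg
    rw [ph_ne hv] at hvg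
    exact hv (h hvg)
  · intro v w hv hw hvw
    rw [ph_ne hv, ph_ne hw] at hvw
    exact h hvw

theorem np_of_pf0 (s0 : σ 0 = 1) (h : PF σ l) {v : V} (h0 : l v = 0) : NP σ l v v := by
  have h1 := np_of_pf h v
  rw [ph_zero s0 h0] at h1
  rwa [← h0, Function.update_eq_self] at h1

/-- row move -/
theorem np_rmv (h : NP σ l x y) {g : V} {j : Fin 3} (hgx : g ≠ x) (hg : ph σ l g = σ j x) :
    NP σ (Function.update (Function.update l x j) g 0) g y := by
  refine ⟨Function.update_self _ _ _, ?_, ?_⟩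
  · intro v hv hvy
    rw [ph_ne hv] at hvy
    rcases eq_or_ne v x with rfl | hvx
    · rw [ph_self, ← hg] at hvy
      exact h.2.1 g hgx hvy
    · rw [ph_ne hvx] at hvy
      exact h.2.1 v hvx hvy
  · intro v w hv hw hvw
    rw [ph_ne hv, ph_ne hw] at hvw
    rcases eq_or_ne v x with rfl | hvx
    · rcases eq_or_ne w v with rfl | hwv
      · rfl
      · rw [ph_self, ph_ne hwv, ← hg] at hvw
        exact absurd (h.2.2 g w hgx hwv hvw).symm hw
    · rcases eq_or_ne w x with rfl | hwx
      · rw [ph_self, ph_ne hvx, ← hg] at hvw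
        exact absurd (h.2.2 v g hvx hgx hvw) hv
      · rw [ph_ne hvx, ph_ne hwx] at hvw
        exact h.2.2 v w hvx hwx hvw

/-- column move -/
theorem np_cmv (h : NP σ l x y) {r : V} {j : Fin 3} (hrx : r ≠ x) (hr : σ j r = y) :
    NP σ (Function.update l r j) x (ph σ l r) := by
  refine ⟨?_, ?_, ?_⟩
  · rw [Function.update_of_ne (Ne.symm hrx)]
    exact h.1
  · intro v hv hvy
    rcases eq_or_ne v r with rfl | hvr
    · rw [ph_self, hr] at hvy
      exact h.2.1 v hv hvy.symm
    · rw [ph_ne hvr] at hvy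
      exact hvr (h.2.2 v r hv hrx hvy)
  · intro v w hv hw hvw
    rcases eq_or_ne v r with rfl | hvr
    · rcases eq_or_ne w v with rfl | hwv
      · rfl
      · rw [ph_self, ph_ne hwv, hr] at hvw
        exact absurd hvw.symm (h.2.1 w hw)
    · rcases eq_or_ne w r with rfl | hwr
      · rw [ph_self, ph_ne hvr, hr] at hvw
        exact absurd hvw (h.2.1 v hv)
      · rw [ph_ne hvr, ph_ne hwr] at hvw
        exact h.2.2 v w hv hw hvw

end states

/-! ## The functions `Fd`, `ret`, `Ps` -/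

section pots

variable (σ : Fin 3 → Equiv.Perm V) (b c : ℤ) (B : (V → Fin 3) → ℤ) {l : V → Fin 3} {x y : V}

theorem Fd_pos (h : x ≠ y) (h' : l y ≠ 0) : Fd σ b c B l x y =
    W b c l (Function.update l y 0) + Fd σ b c B (Function.update l y 0) x (ph σ l y) := by
  rw [Fd, dif_pos ⟨h, h'⟩]

theorem Fd_neg (x : V) : Fd σ b c B l x x = B l := by
  rw [Fd, dif_neg (fun h => h.1 rfl)]

theorem ret_pos (h : x ≠ y) (h' : l y ≠ 0) :
    ret σ l x y = ret σ (Function.update l y 0) x (ph σ l y) := by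
  rw [ret, dif_pos ⟨h, h'⟩]

theorem ret_neg (x : V) : ret σ l x x = l := by
  rw [ret, dif_neg (fun h => h.1 rfl)]

theorem Ps_pos (h : x ≠ y) (h' : l y ≠ 0) : Ps σ b c l x y =
    W b c l (Function.update l y 0) + Ps σ b c (Function.update l y 0) x (ph σ l y) := by
  rw [Ps, dif_pos ⟨h, h'⟩]

theorem Ps_neg (h : ¬ (x ≠ y ∧ l y ≠ 0)) : Ps σ b c l x y = Bs σ b c l := by
  rw [Ps, dif_neg h]
  unfold Bs Bg
  split_ifs <;> rfl

theorem Ps_self (x : V) : Ps σ b c l x x = Bs σ b c l := Ps_neg σ b c (fun h => h.1 rfl)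

theorem Ps_eq_Fd (l : V → Fin 3) (x y : V) : Ps σ b c l x y = Fd σ b c (Bs σ b c) l x y := by
  generalize hn : nu l = n
  induction n using Nat.strong_induction_on generalizing l y with
  | _ n ih =>
    by_cases h : x ≠ y ∧ l y ≠ 0
    · rw [Ps_pos σ b c h.1 h.2, Fd_pos σ b c _ h.1 h.2,
        ih _ (by rw [← hn]; exact nu_lt h.2) _ _ rfl]
    · rw [Ps_neg σ b c h, Fd, dif_neg h]

theorem Fd_sub (B' : (V → Fin 3) → ℤ) (l : V → Fin 3) (x y : V) :
    Fd σ b c B l x y - Fd σ b c B' l x y = B (ret σ l x y) - B' (ret σ l x y) := by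
  generalize hn : nu l = n
  induction n using Nat.strong_induction_on generalizing l y with
  | _ n ih =>
    by_cases h : x ≠ y ∧ l y ≠ 0
    · rw [Fd_pos σ b c _ h.1 h.2, Fd_pos σ b c _ h.1 h.2, ret_pos σ h.1 h.2,
        ← ih _ (by rw [← hn]; exact nu_lt h.2) _ _ rfl]
      ring
    · rw [Fd, dif_neg h, Fd, dif_neg h, ret, dif_neg h]

theorem nu_ret (l : V → Fin 3) (x y : V) : nu (ret σ l x y) ≤ nu l := by
  generalize hn : nu l = n
  induction n using Nat.strong_induction_on generalizing l y with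
  | _ n ih =>
    by_cases h : x ≠ y ∧ l y ≠ 0
    · rw [ret_pos σ h.1 h.2]
      have h1 : nu (Function.update l y 0) < n := by
        rw [← hn]
        exact nu_lt h.2
      exact (ih _ h1 _ _ rfl).trans h1.le
    · rw [ret, dif_neg h]
      exact hn.le

theorem ret_or (l : V → Fin 3) (x y v : V) : ret σ l x y v = l v ∨ ret σ l x y v = 0 := by
  generalize hn : nu l = n
  induction n using Nat.strong_induction_on generalizing l y with
  | _ n ih =>
    by_cases h : x ≠ y ∧ l y ≠ 0
    · rw [ret_pos σ h.1 h.2]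
      rcases ih _ (by rw [← hn]; exact nu_lt h.2) (Function.update l y 0) (ph σ l y) rfl with h1 | h1
      · rcases eq_or_ne v y with rfl | hvy
        · right
          rw [h1, Function.update_self]
        · left
          rw [h1, Function.update_of_ne hvy]
      · exact Or.inr h1
    · rw [ret, dif_neg h]
      exact Or.inl rfl

/-- the retraction does not change labels outside a set which contains the path -/
theorem ret_Y (s0 : σ 0 = 1) (l : V → Fin 3) (x y g : V) (Y : Finset V) (hy : y ∈ Y)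
    (hg : g ∉ Y) (hY : ∀ v ∈ Y, v ≠ x → ph σ l v ∈ Y) : ret σ l x y g = l g := by
  generalize hn : nu l = n
  induction n using Nat.strong_induction_on generalizing l y with
  | _ n ih =>
    by_cases h : x ≠ y ∧ l y ≠ 0
    · rw [ret_pos σ h.1 h.2]
      have h0 : g ≠ y := fun h0 => hg (h0 ▸ hy)
      rw [ih _ (by rw [← hn]; exact nu_lt h.2) (Function.update l y 0) (ph σ l y)
        (hY y hy (Ne.symm h.1)) ?_ rfl, Function.update_of_ne h0]
      intro v hv hvx
      rcases eq_or_ne v y with rfl | hvy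
      · rw [ph_self, s0]
        exact hv
      · rw [ph_ne hvy]
        exact hY v hv hvx
    · rw [ret, dif_neg h]

theorem pf_ret (s0 : σ 0 = 1) (h : NP σ l x y) : PF σ (ret σ l x y) := by
  generalize hn : nu l = n
  induction n using Nat.strong_induction_on generalizing l y with
  | _ n ih =>
    rcases eq_or_ne x y with rfl | hxy
    · rw [ret_neg]
      exact pf_of_np s0 h
    · rw [ret_pos σ hxy (np_y s0 h hxy)]
      exact ih _ (by rw [← hn]; exact nu_lt (np_y s0 h hxy)) (np_col s0 h hxy) rfl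

end pots

/-! ## Weights -/

section weights

variable {σ : Fin 3 → Equiv.Perm V} {b c : ℤ} {d : ℤ × ℤ}

/-- up triangles -/
theorem upW (upt : UptStmt) (b c : ℤ) (k : V → Fin 3) (v₁ v₂ v₃ : V) (j₁ j₂ j₃ : Fin 3)
    (h₁ : k v₁ = 0) (h₂ : k v₂ = 0) (h₃ : k v₃ = 0) :
    W b c (Function.update k v₁ j₁) (Function.update k v₂ j₂) +
      W b c (Function.update k v₂ j₂) (Function.update k v₃ j₃) =
      W b c (Function.update k v₁ j₁) (Function.update k v₃ j₃) := by
  unfold W
  rw [pt_of_zero h₁, pt_of_zero h₂, pt_of_zero h₃]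
  exact upt b c (pt k) j₁ j₂ j₃

/-- up triangles, in terms of the points -/
theorem upP (upt : UptStmt) (b c : ℤ) (k : ℤ × ℤ) (l₁ l₂ l₃ : V → Fin 3) (j₁ j₂ j₃ : Fin 3)
    (h₁ : pt l₁ = k + dl j₁) (h₂ : pt l₂ = k + dl j₂) (h₃ : pt l₃ = k + dl j₃) :
    W b c l₁ l₂ + W b c l₂ l₃ = W b c l₁ l₃ := by
  unfold W
  rw [h₁, h₂, h₃]
  exact upt b c k j₁ j₂ j₃

/-- down triangles -/
theorem dnW (dnt : DntStmt) (P : V → Fin 3) (hP : pt P ≠ (b, c)) (f g h : V) :
    W b c (Function.update P f 0) (Function.update P g 0) +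
      W b c (Function.update P g 0) (Function.update P h 0) =
      W b c (Function.update P f 0) (Function.update P h 0) := by
  unfold W
  rw [pt_zero, pt_zero, pt_zero]
  exact dnt b c (pt P) (P f) (P g) (P h) hP

/-- down triangles, with the perfect matching itself -/
theorem dnW0 (dnt : DntStmt) (P : V → Fin 3) (hP : pt P ≠ (b, c)) (g h : V) :
    W b c P (Function.update P g 0) + W b c (Function.update P g 0) (Function.update P h 0) =
      W b c P (Function.update P h 0) := by
  unfold W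
  rw [pt_zero, pt_zero]
  have h1 := dnt b c (pt P) 0 (P g) (P h) hP
  rwa [dl_zero, sub_zero] at h1

/-- squares, in terms of the points -/
theorem sqP (sqa : SqaStmt) (hd : InD b c d) (k : ℤ × ℤ) (i i' j j' : Fin 3)
    {l₀₀ l₁₀ l₁₁ l₀₁ : V → Fin 3} (h₀₀ : pt l₀₀ = k + dl i + dl j) (h₁₀ : pt l₁₀ = k + dl i' + dl j)
    (h₁₁ : pt l₁₁ = k + dl i' + dl j') (h₀₁ : pt l₀₁ = k + dl i + dl j')
    (n₀₀ : pt l₀₀ ≠ d) (n₁₀ : pt l₁₀ ≠ d) (n₁₁ : pt l₁₁ ≠ d) (n₀₁ : pt l₀₁ ≠ d) :
    W b c l₀₀ l₁₀ + W b c l₁₀ l₁₁ = W b c l₀₀ l₀₁ + W b c l₀₁ l₁₁ := by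
  unfold W
  rw [h₀₀] at n₀₀ ⊢
  rw [h₁₀] at n₁₀ ⊢
  rw [h₁₁] at n₁₁ ⊢
  rw [h₀₁] at n₀₁ ⊢
  exact sqa b c d k i i' j j' hd n₀₀ n₁₀ n₁₁ n₀₁

theorem W_self (b c : ℤ) (l : V → Fin 3) : W b c l l = 0 := by
  unfold W om
  simp

theorem W_anti (b c : ℤ) (l l' : V → Fin 3) : W b c l' l = - W b c l l' := by
  unfold W om
  ring

/-- the chosen row can be replaced by any other row -/
theorem Bs_eq {M : ℕ} (hX : XM σ b c M) {l : V → Fin 3} (hl : PF σ l) (hM : nu l ≤ M) {g : V}
    (hg : l g ≠ 0) : Bs σ b c l = Bg σ b c g l := by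
  unfold Bs
  rw [dif_pos ⟨g, hg⟩]
  exact hX l hl hM _ _ (Exists.choose_spec (⟨g, hg⟩ : ∃ v, l v ≠ 0)) hg

/-- the potential can be computed with the row `g` at the end -/
theorem Ps_eq_Bg {M : ℕ} (s0 : σ 0 = 1) (hX : XM σ b c M) {l : V → Fin 3} {x y g : V}
    (h : NP σ l x y) (hM : nu (ret σ l x y) ≤ M) (hg : ret σ l x y g ≠ 0) :
    Ps σ b c l x y = Fd σ b c (Bg σ b c g) l x y := by
  have h1 := Fd_sub σ b c (Bs σ b c) (Bg σ b c g) l x y
  rw [Bs_eq hX (pf_ret σ s0 h) hM hg, sub_self] at h1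
  rw [Ps_eq_Fd]
  linarith

end weights

end Pool.Agent.R3.Kit
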