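import Mathlib
import Pool.Agent.R3.Stmts

/-!
# From the exact theorem for three bijections to coloured systems of three perfect matchings
-/

set_option autoImplicit false

namespace Pool.Agent.R3.H21

open Pool.Agent.R3

theorem wrap (fin : FinStmt) {α : Type*} {R C : Type*} [Fintype R] [Fintype C] (n : ℕ)
    (hR : Fintype.card R = n + 1) (hC : Fintype.card C = n + 1) (row : α → R) (col : α → C)
    (T : Fin 3 → Finset α)
    (hT : ∀ j, (T j).card = n + 1 ∧ Set.InjOn row (T j) ∧ Set.InjOn col (T j))
    (c : Fin n → Fin 3) :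
    ∃ g : Fin n → α, (∀ i, g i ∈ T (c i)) ∧ Function.Injective (fun i => row (g i)) ∧
      Function.Injective (fun i => col (g i)) := by
  classical
  -- the two sides are copies of `Fin (n + 1)`
  let eR : R ≃ Fin (n + 1) := Fintype.equivFinOfCardEq hR
  let eC : C ≃ Fin (n + 1) := Fintype.equivFinOfCardEq hC
  have hrow : ∀ j, Function.Bijective (fun x : T j => eR (row x)) := by
    intro j
    rw [Fintype.bijective_iff_injective_and_card]
    refine ⟨?_, by simp [(hT j).1]⟩
    intro x y hxy
    exact Subtype.ext ((hT j).2.1 x.2 y.2 (eR.injective hxy))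
  have hcol : ∀ j, Function.Bijective (fun x : T j => eC (col x)) := by
    intro j
    rw [Fintype.bijective_iff_injective_and_card]
    refine ⟨?_, by simp [(hT j).1]⟩
    intro x y hxy
    exact Subtype.ext ((hT j).2.2 x.2 y.2 (eC.injective hxy))
  let er : ∀ j, T j ≃ Fin (n + 1) := fun j => Equiv.ofBijective _ (hrow j)
  let ec : ∀ j, T j ≃ Fin (n + 1) := fun j => Equiv.ofBijective _ (hcol j)
  let f : Fin 3 → Fin (n + 1) ≃ Fin (n + 1) := fun j => (er j).symm.trans (ec j)
  let a : Fin 3 → ℕ := fun j => (Finset.univ.filter (fun i => c i = j)).card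
  have ha : a 0 + a 1 + a 2 + 1 ≤ Fintype.card (Fin (n + 1)) := by
    have h1 : (Finset.univ : Finset (Fin n)).card = ∑ j : Fin 3, a j :=
      Finset.card_eq_sum_card_fiberwise (fun i _ => Finset.mem_univ (c i))
    rw [Fin.sum_univ_three, Finset.card_univ, Fintype.card_fin] at h1
    rw [Fintype.card_fin]
    omega
  obtain ⟨A, hA, hdis, hinj⟩ := fin (Fin (n + 1)) (Fin (n + 1)) f a ha
  let b : ∀ j, {i // i ∈ Finset.univ.filter (fun i => c i = j)} ≃ {r // r ∈ A j} :=
    fun j => Finset.equivOfCardEq (hA j).symm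
  have hmem : ∀ i, i ∈ Finset.univ.filter (fun i' => c i' = c i) := fun i => by simp
  let p : Fin n → Fin (n + 1) := fun i => (b (c i) ⟨i, hmem i⟩ : Fin (n + 1))
  have hp : ∀ i, p i ∈ A (c i) := fun i => (b (c i) ⟨i, hmem i⟩).2
  have hb' : ∀ j (i : Fin n) (h : i ∈ Finset.univ.filter (fun i' => c i' = j)),
      p i = (b j ⟨i, h⟩ : Fin (n + 1)) := by
    intro j i h
    have : c i = j := (Finset.mem_filter.1 h).2
    subst this
    rfl
  have pinj : Function.Injective p := by
    intro i k hik
    by_cases hc : c i = c k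
    · have h1 : i ∈ Finset.univ.filter (fun i' => c i' = c k) := by simp [hc]
      rw [hb' (c k) i h1, hb' (c k) k (hmem k)] at hik
      have := (b (c k)).injective (Subtype.ext hik)
      exact congrArg Subtype.val this
    · exfalso
      have h1 := hp i
      rw [hik] at h1
      exact (Finset.disjoint_left.1 (hdis _ _ hc) h1) (hp k)
  refine ⟨fun i => ((er (c i)).symm (p i) : α), fun i => ((er (c i)).symm (p i)).2, ?_, ?_⟩
  · intro i k hik
    have h1 : ∀ i, eR (row ((er (c i)).symm (p i) : α)) = p i :=
      fun i => (er (c i)).apply_symm_apply (p i)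
    have h2 := congrArg eR hik
    simp only [h1] at h2
    exact pinj h2
  · intro i k hik
    have h1 : ∀ i, eC (col ((er (c i)).symm (p i) : α)) = f (c i) (p i) := fun i => rfl
    have h2 := congrArg eC hik
    simp only [h1] at h2
    exact pinj (hinj _ _ _ (hp i) _ (hp k) h2)

end Pool.Agent.R3.H21
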