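import Mathlib
import Pool.Agent.R3.Stmts
import Pool.Agent.Helper21_R3.Wrap
import Pool.Agent.Helper20_R3.Upt
import Pool.Agent.Helper20_R3.Dnt
import Pool.Agent.Helper20_R3.Sqa
import Pool.Agent.Helper20_R3.Fdr
import Pool.Agent.Helper20_R3.Wlk
import Pool.Agent.Helper17_R3.Alf
import Pool.Agent.Helper32_R3.Col
import Pool.Agent.Helper4_R3.Msa
import Pool.Agent.Helper4_R3.Msb
import Pool.Agent.Helper8_R3.Row
import Pool.Agent.Helper76_R3.Rea
import Pool.Agent.Helper81_R3.OVC
import Pool.Agent.Helper60_R3.Cnn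
import Pool.Agent.Helper60_R3.GEN
import Pool.Agent.Helper92_R3.DRI
import Pool.Agent.Helper65_R3.FIN

/-!
# Three perfect matchings: the final assembly
-/

set_option autoImplicit false

namespace Pool.Agent.R3.H21

open Pool.Agent.R3

theorem fdr : FdrStmt := H20.fdr H20.sqa

theorem row : RowStmt := H8.row H20.upt H20.sqa

theorem rwg : RwgStmt := H8.rwg H20.upt H20.sqa

theorem col : ColStmt := H32.col H20.upt H20.sqa fdr

theorem alf : AlfStmt := H17.alf H20.upt H20.dnt fdr

theorem msa : MsaStmt := H4.msa H20.upt H20.dnt row col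

theorem msb : MsbStmt := H4.msb H20.sqa fdr row col

theorem rea : ReaStmt := H76.rea alf msa msb (H32.ovx fdr) (H81.ovc fdr)

theorem fin3 : FinStmt :=
  H65.fin3 (H60.gen (H60.con rea (H20.wlk H20.dnt rwg)) H92.dri)

end Pool.Agent.R3.H21
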